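import Mathlib

set_option autoImplicit false

namespace Pool.Agent.Results.MP_69f1cd_co.Cex

def Arc {S T : Type} (u v : S → T → ℝ) (p q : S × T) : Prop :=
  (p.2 = q.2 ∧ p.1 ≠ q.1 ∧ u p.1 p.2 < u q.1 q.2) ∨ (p.1 = q.1 ∧ p.2 ≠ q.2 ∧ v p.1 p.2 < v q.1 q.2)

private def a : Fin 4 → Fin 5 → ℕ := ![![0, 2, 3, 0, 1], ![3, 3, 0, 1, 2], ![2, 1, 2, 3, 0], ![1, 0, 1, 2, 3]]
private def b : Fin 4 → Fin 5 → ℕ := ![![3, 4, 2, 1, 0], ![2, 3, 1, 0, 4], ![4, 0, 3, 2, 1], ![1, 2, 0, 4, 3]]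
private def f (p : Fin 4 × Fin 5) : Fin 4 × Fin 5 :=
  ![![(0, 0), (1, 1), (0, 0), (0, 0), (0, 0)], ![(1, 4), (1, 4), (0, 2), (1, 2), (3, 4)], ![(1, 0), (2, 2), (0, 2), (2, 2), (0, 4)], ![(3, 1), (2, 1), (0, 2), (2, 3), (3, 3)]] p.1 p.2
private def g (p : Fin 4 × Fin 5) : Fin 4 × Fin 5 :=
  ![![(0, 0), (0, 0), (2, 2), (0, 4), (2, 4)], ![(0, 0), (0, 1), (1, 3), (0, 3), (1, 0)], ![(0, 0), (3, 1), (2, 1), (3, 3), (2, 1)], ![(0, 0), (3, 0), (1, 2), (3, 0), (3, 0)]] p.1 p.2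

private def A (p q : Fin 4 × Fin 5) : Prop :=
  (p.2 = q.2 ∧ p.1 ≠ q.1 ∧ a p.1 p.2 < a q.1 q.2) ∨ (p.1 = q.1 ∧ p.2 ≠ q.2 ∧ b p.1 p.2 < b q.1 q.2)

private instance : DecidableRel A := fun _ _ => by unfold A; infer_instance

private theorem h1 : ∀ p, (p = f p ∨ A p (f p)) ∧ (g p = p ∨ A (g p) p) ∧ f^[8] p = (0, 0) ∧
    g^[9] p = (0, 0) := by decide +kernel

private theorem h2 : ∀ p q, A p q → ∀ r, A q r → ∀ s, A r s → ¬ A s p := by decide +kernel

theorem result : ∃ (S T : Type) (_ : Fintype S) (_ : Fintype T) (u v : S → T → ℝ),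
    1 < Fintype.card (S × T) ∧
    (∀ s s' t, s ≠ s' → u s t ≠ u s' t) ∧ (∀ s t t', t ≠ t' → v s t ≠ v s t') ∧
    (∀ p q, Relation.ReflTransGen (Arc u v) p q) ∧
    ¬ ∃ p q r s, [p, q, r, s].Nodup ∧ Arc u v p q ∧ Arc u v q r ∧ Arc u v r s ∧ Arc u v s p := by
  have e : Arc (fun s t => (a s t : ℝ)) (fun s t => (b s t : ℝ)) = A := by
    funext p q
    simp only [Arc, A, Nat.cast_lt]
  refine ⟨Fin 4, Fin 5, inferInstance, inferInstance, fun s t => (a s t : ℝ), fun s t => (b s t : ℝ),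
    by simp, ?_, ?_, fun p q => ?_, ?_⟩
  · simp only [ne_eq, Nat.cast_inj]
    decide +kernel
  · simp only [ne_eq, Nat.cast_inj]
    decide +kernel
  · rw [e]
    have F : ∀ n p, Relation.ReflTransGen A p (f^[n] p) := by
      intro n
      induction n with
      | zero => exact fun p => .refl
      | succ n ih =>
        intro p
        rcases (h1 p).1 with h | h
        · rw [Function.iterate_succ_apply, ← h]; exact ih p
        · exact .head h (ih _)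
    have G : ∀ n p, Relation.ReflTransGen A (g^[n] p) p := by
      intro n
      induction n with
      | zero => exact fun p => .refl
      | succ n ih =>
        intro p
        rcases (h1 p).2.1 with h | h
        · rw [Function.iterate_succ_apply, h]; exact ih p
        · exact .tail (ih _) h
    exact ((h1 p).2.2.1 ▸ F 8 p).trans ((h1 q).2.2.2 ▸ G 9 q)
  · rw [e]
    rintro ⟨p, q, r, s, -, k1, k2, k3, k4⟩
    exact h2 p q k1 r k2 s k3 k4

end Pool.Agent.Results.MP_69f1cd_co.Cex
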